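import Pool.Agent.QL.Lift
import Pool.Agent.Hhelper14.SAW.Count

/-!
CYL, part D1: the honeycomb lattice covers the cylinder graph `CV N`; lifting of paths (general starting vertex).
-/

namespace Pool.Agent.CYL.Cov

open Pool.Agent.Hhelper14.SAW Pool.Agent.HHP Pool.Agent.QL

variable {N : ℕ}

lemma hon_F0 {z : ℤ × ℤ} : hon z ↔ F0 z % 3 = 0 ∨ F0 z % 3 = 1 := by
  obtain ⟨x, y⟩ := z
  simp only [hon, F0]
  omega

/-- Two vertices of the lattice have the same projection iff they differ by a multiple of the period. -/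
lemma pr_eq_iff (i : Fin N) {z z' : ℤ × ℤ} (hz : hon z) (hz' : hon z') :
    pr i z = pr i z' ↔ ∃ k : ℤ, z - z' = (-(k * N), 2 * (k * N)) := by
  rw [hon_F0] at hz hz'
  constructor
  · intro h
    have h1 : F0 z / 3 = F0 z' / 3 := congrArg (fun w => w.1) h
    have h2 : md i (F0 z / 3 - z.1) = md i (F0 z' / 3 - z'.1) := congrArg (fun w => w.2.1) h
    have h3 : decide (F0 z % 3 = 0) = decide (F0 z' % 3 = 0) := congrArg (fun w => w.2.2) h
    rw [decide_eq_decide] at h3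
    have h4 : F0 z = F0 z' := by omega
    rw [h4, md_eq_same] at h2
    obtain ⟨q, hq⟩ := h2
    obtain ⟨x, y⟩ := z
    obtain ⟨x', y'⟩ := z'
    simp only [F0] at h4 hq
    refine ⟨q, ?_⟩
    simp only [Prod.mk_sub_mk, Prod.mk.injEq]
    rw [mul_comm q (N : ℤ)]
    omega
  · rintro ⟨k, hk⟩
    have h4 : F0 z = F0 z' := by
      obtain ⟨x, y⟩ := z
      obtain ⟨x', y'⟩ := z'
      simp only [Prod.mk_sub_mk, Prod.mk.injEq] at hk
      simp only [F0]
      omega
    have h5 : md i (F0 z' / 3 - z.1) = md i (F0 z' / 3 - z'.1) := by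
      rw [md_eq_same]
      have h6 : z.1 - z'.1 = -(k * N) := congrArg Prod.fst hk
      exact ⟨k, by rw [mul_comm]; omega⟩
    unfold pr
    rw [h4, h5]

/-- Neighbours project to neighbours. -/
lemma ad_of_adj (i : Fin N) {z z' : ℤ × ℤ} (h : Adj z z') : ad (pr i z) (pr i z') := by
  obtain ⟨h1, h2, h3⟩ := h
  have key : ∀ {u v : ℤ × ℤ}, hon u → hon v → F0 u % 3 = 0 → U (u - v) → ad1 (pr i u) (pr i v) := by
    intro u v hu hv h0 hU
    obtain ⟨x, y⟩ := u
    obtain ⟨x', y'⟩ := v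
    have hv' := hon_F0.1 hv
    have e : ((x', y') : ℤ × ℤ) = (x, y) + (x' - x, y' - y) := by simp
    rw [e]
    apply ad1_pr i h0
    simp only [U, Prod.mk_sub_mk, F0, Prod.mk.injEq] at hU h0 hv' ⊢
    omega
  rcases hon_F0.1 h1 with h0 | h0
  · exact Or.inl (key h1 h2 h0 h3)
  · right
    have h4 : F0 z' % 3 = 0 := by
      rcases hon_F0.1 h2 with h5 | h5
      · exact h5
      · exfalso
        obtain ⟨x, y⟩ := z
        obtain ⟨x', y'⟩ := z'
        simp only [U, Prod.mk_sub_mk, F0] at h3 h0 h5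
        omega
    exact key h2 h1 h4 h3.symm

/-- Every neighbour of a projected vertex is the projection of a neighbour. -/
lemma lift_one (i : Fin N) {z : ℤ × ℤ} (hz : hon z) {w : CV N} (hw : ad (pr i z) w) :
    ∃ z', Adj z z' ∧ pr i z' = w := by
  obtain ⟨x, y⟩ := z
  rcases hon_F0.1 hz with h0 | h0
  · have hg : Gd (x, y) (1, 0) := Or.inl ⟨h0, Or.inl rfl⟩
    rcases ad_ex i hg hw with h | ⟨b, h⟩
    · refine ⟨_, ⟨hz, ?_, ?_⟩, h.symm⟩
      · rw [hon_F0]; simp only [F0, Prod.mk_sub_mk] at h0 ⊢; omega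
      · simp [U]
    · refine ⟨_, ⟨hz, ?_, ?_⟩, h.symm⟩
      · rw [hon_F0]; cases b <;> simp only [tn, L, R, F0, Prod.mk_add_mk, if_true, if_false, Bool.false_eq_true] at h0 ⊢ <;> omega
      · cases b <;> simp [tn, L, R, U]
  · have hg : Gd (x, y) (-1, 0) := Or.inr ⟨h0, Or.inl rfl⟩
    rcases ad_ex i hg hw with h | ⟨b, h⟩
    · refine ⟨_, ⟨hz, ?_, ?_⟩, h.symm⟩
      · rw [hon_F0]; simp only [F0, Prod.mk_sub_mk] at h0 ⊢; omega
      · simp [U]
    · refine ⟨_, ⟨hz, ?_, ?_⟩, h.symm⟩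
      · rw [hon_F0]; cases b <;> simp only [tn, L, R, F0, Prod.mk_add_mk, if_true, if_false, Bool.false_eq_true] at h0 ⊢ <;> omega
      · cases b <;> simp [tn, L, R, U]

/-- The neighbours of a vertex have different projections. -/
lemma uniq_one (hN : 2 ≤ N) (i : Fin N) {z z' z'' : ℤ × ℤ} (h1 : Adj z z') (h2 : Adj z z'')
    (h : pr i z' = pr i z'') : z' = z'' := by
  obtain ⟨k, hk⟩ := (pr_eq_iff i h1.2.1 h2.2.1).1 h
  have hU := h1.2.2
  have hU' := h2.2.2
  obtain ⟨x, y⟩ := z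
  obtain ⟨x', y'⟩ := z'
  obtain ⟨x'', y''⟩ := z''
  simp only [Prod.mk_sub_mk, Prod.mk.injEq, U] at hk hU hU'
  have h3 : (2 : ℤ) ≤ N := by exact_mod_cast hN
  have hk0 : k = 0 := by
    by_contra hne
    have h4 : (2 : ℤ) ≤ |k * N| := by
      rw [abs_mul]
      have : 1 ≤ |k| := Int.one_le_abs hne
      have h5 : (2 : ℤ) ≤ |(N : ℤ)| := by rw [abs_of_nonneg (by omega)]; exact h3
      nlinarith [abs_nonneg k]
    rcases abs_cases (k * (N : ℤ)) with ⟨h6, -⟩ | ⟨h6, -⟩ <;> omega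
  subst hk0
  simp only [zero_mul, neg_zero, mul_zero] at hk
  simp only [Prod.mk.injEq]
  omega

/-- Lifting of a path. -/
lemma lift_list (i : Fin N) (l : List (CV N)) : ∀ {z : ℤ × ℤ}, hon z → (pr i z :: l).IsChain ad →
    ∃ R : List (ℤ × ℤ), (z :: R).IsChain Adj ∧ R.map (pr i) = l := by
  induction l with
  | nil => intro z hz _; exact ⟨[], by simp, rfl⟩
  | cons w l ih =>
    intro z hz hc
    rw [List.isChain_cons_cons] at hc
    obtain ⟨z', h1, rfl⟩ := lift_one i hz hc.1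
    obtain ⟨R, h2, h3⟩ := ih h1.2.1 hc.2
    exact ⟨z' :: R, by rw [List.isChain_cons_cons]; exact ⟨h1, h2⟩, by rw [List.map_cons, h3]⟩

lemma uniq_list (hN : 2 ≤ N) (i : Fin N) : ∀ (R R' : List (ℤ × ℤ)) {z : ℤ × ℤ}, (z :: R).IsChain Adj →
    (z :: R').IsChain Adj → R.map (pr i) = R'.map (pr i) → R = R'
  | [], [], _, _, _, _ => rfl
  | [], _ :: _, _, _, _, h => by simp at h
  | _ :: _, [], _, _, _, h => by simp at h
  | a :: R, b :: R', z, h1, h2, h => by
    rw [List.isChain_cons_cons] at h1 h2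
    simp only [List.map_cons, List.cons.injEq] at h
    have e := uniq_one hN i h1.1 h2.1 h.1
    subst e
    rw [uniq_list hN i R R' h1.2 h2.2 h.2]

lemma chain_map (i : Fin N) : ∀ {R : List (ℤ × ℤ)}, R.IsChain Adj → (R.map (pr i)).IsChain ad
  | [], _ => by simp
  | [x], _ => by simp
  | x :: y :: R, h => by
    rw [List.isChain_cons_cons] at h
    have h2 := chain_map i h.2
    simp only [List.map_cons] at h2 ⊢
    rw [List.isChain_cons_cons]
    exact ⟨ad_of_adj i h.1, h2⟩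

end Pool.Agent.CYL.Cov
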