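import Pool.Agent.CYL.D.Cov.Lift
import Pool.Agent.CYL.D.Def
import Pool.Agent.CYL.D.Fdef
import Pool.Agent.Hhelper14.SAW.Main
import Pool.Agent.Hhelper14.SAW.Quant

/-!
CYL, part D1 (cover): crossing paths of the plane modulo `i √3 L` and crossing paths of the cylinder graph.

`pf N i z = pr i ((N-1, N) - z)` covers the cylinder of `N` rows and takes `0` to the bottom vertex `ub N i`.
-/

namespace Pool.Agent.CYL.DC

open Pool.Agent.Hhelper14.SAW Pool.Agent.Hhelper14.Honeycomb Pool.Agent.HHP Pool.Agent.QL Pool.Agent.CYL.Cov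
open scoped ENNReal

variable {L N : ℕ} {i : Fin L}

/-- The point reflection which exchanges the two sides. -/
def fl (N : ℕ) (z : ℤ × ℤ) : ℤ × ℤ := ((N : ℤ) - 1, (N : ℤ)) - z

/-- The covering of the cylinder of `N` rows, with `0` over the bottom vertex `i`. -/
def pf (N : ℕ) (i : Fin L) (z : ℤ × ℤ) : CV L := pr i (fl N z)

lemma fl_fl (z : ℤ × ℤ) : fl N (fl N z) = z := by simp [fl]

lemma hon_fl {z : ℤ × ℤ} (hz : hon z) : hon (fl N z) := by
  obtain ⟨x, y⟩ := z
  simp only [hon, fl, Prod.mk_sub_mk] at hz ⊢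
  omega

lemma F0_fl (z : ℤ × ℤ) : F0 (fl N z) = 3 * N - 2 - F0 z := by
  obtain ⟨x, y⟩ := z
  simp only [fl, F0, Prod.mk_sub_mk]
  ring

lemma adj_fl {x y : ℤ × ℤ} (h : Adj x y) : Adj (fl N x) (fl N y) := by
  refine ⟨hon_fl h.1, hon_fl h.2.1, ?_⟩
  have : fl N x - fl N y = -(x - y) := by simp only [fl]; ring
  rw [this]
  exact h.2.2.neg

lemma chain_fl : ∀ {R : List (ℤ × ℤ)}, R.IsChain Adj → (R.map (fl N)).IsChain Adj
  | [], _ => by simp
  | [x], _ => by simp
  | x :: y :: R, h => by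
    rw [List.isChain_cons_cons] at h
    have h2 := chain_fl h.2
    simp only [List.map_cons] at h2 ⊢
    exact List.isChain_cons_cons.2 ⟨adj_fl h.1, h2⟩

lemma map_pf (R : List (ℤ × ℤ)) : R.map (pf N i) = (R.map (fl N)).map (pr i) := by
  rw [List.map_map]; rfl

lemma map_fl_fl (R : List (ℤ × ℤ)) : (R.map (fl N)).map (fl N) = R := by
  rw [List.map_map]
  have : (fl N ∘ fl N) = id := by funext z; exact fl_fl z
  rw [this, List.map_id]

lemma pf_zero : pf N i (0, 0) = ub N i := by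
  unfold pf pr ub
  have h1 : fl N (0, 0) = ((N : ℤ) - 1, (N : ℤ)) := by simp [fl]
  have h2 : F0 ((N : ℤ) - 1, (N : ℤ)) = 3 * ((N : ℤ) - 1) + 1 := by simp only [F0]; ring
  have h3 : (3 * ((N : ℤ) - 1) + 1) / 3 = (N : ℤ) - 1 := by omega
  have h4 : decide ((3 * ((N : ℤ) - 1) + 1) % 3 = 0) = false := by
    rw [decide_eq_false_iff_not]; omega
  rw [h1, h2, h3, h4, sub_self, md_zero]

lemma pf_eq_iff {z z' : ℤ × ℤ} (hz : hon z) (hz' : hon z') :
    pf N i z = pf N i z' ↔ ∃ k : ℤ, z' - z = (-(k * L), 2 * (k * L)) := by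
  unfold pf
  rw [pr_eq_iff i (hon_fl hz) (hon_fl hz')]
  have : fl N z - fl N z' = z' - z := by simp only [fl]; ring
  rw [this]

/-! ### the plane -/

lemma emb_re (z : ℤ × ℤ) : (emb z).re = (F0 z : ℝ) / 2 := by
  unfold emb F0
  simp only [Complex.add_re, Complex.mul_re, Complex.intCast_re, Complex.intCast_im, omega_re, zero_mul,
    sub_zero]
  push_cast
  ring

lemma emb_period (m : ℤ) : emb (-m, 2 * m) = m * Real.sqrt 3 * Complex.I := by
  apply Complex.ext
  · rw [emb_re]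
    simp [F0]
  · unfold emb
    simp only [Complex.add_im, Complex.mul_im, Complex.intCast_re, Complex.intCast_im, omega_im, Complex.ofReal_re,
      Complex.ofReal_im, Complex.I_re, Complex.I_im, Complex.mul_re, zero_add, zero_mul, mul_zero, mul_one, add_zero,
      sub_zero]
    push_cast
    ring

lemma same_iff {z z' : ℤ × ℤ} (hz : hon z) (hz' : hon z') :
    Plane.Same L (emb z) (emb z') ↔ pf N i z = pf N i z' := by
  rw [pf_eq_iff hz hz']
  unfold Plane.Same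
  apply exists_congr
  intro k
  have h1 : ((k : ℂ) * (Real.sqrt 3 * L * Complex.I)) = emb (-(k * L), 2 * (k * L)) := by
    rw [emb_period]
    push_cast
    ring
  rw [h1, ← emb_inj.eq_iff, ← emb_sub, sub_eq_iff_eq_add, add_comm]

lemma one_div_muL : 1 / muL = xc := by
  rw [muL_eq hw_quant]; rfl

lemma ofReal_wt (w : List ℂ) : ENNReal.ofReal (Plane.wt w) = xE ^ w.length := by
  unfold Plane.wt xE
  rw [one_div_muL, ENNReal.ofReal_pow]
  exact xc_pos.le

/-! ### the paths -/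

/-- Integer version of `Plane.Cross`. -/
def IP (N : ℕ) (i : Fin L) : Set (List (ℤ × ℤ)) :=
  {R | R.head? = some (0, 0) ∧ (∀ z ∈ R, hon z ∧ 0 ≤ F0 z ∧ F0 z ≤ 3 * N - 2) ∧ R.IsChain Adj ∧
    (R.map (pf N i)).Nodup ∧ ∀ z ∈ R.getLast?, F0 z = 3 * N - 2}

/-- The crossing paths of the cylinder graph which start at the bottom vertex `i`. -/
def CC (N : ℕ) (i : Fin L) : Set (List (CV L)) := {l | ∃ e, CP N (ub N i) (ut e) l}

lemma re_le_iff (z : ℤ × ℤ) : (emb z).re ≤ (3 * (N : ℝ) - 2) / 2 ↔ F0 z ≤ 3 * N - 2 := by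
  rw [emb_re, div_le_div_iff_of_pos_right (by norm_num)]
  constructor
  · intro h
    have : (F0 z : ℝ) ≤ ((3 * N - 2 : ℤ) : ℝ) := by push_cast; linarith
    exact_mod_cast this
  · intro h
    have : (F0 z : ℝ) ≤ ((3 * N - 2 : ℤ) : ℝ) := by exact_mod_cast h
    push_cast at this
    linarith

lemma re_eq_iff (z : ℤ × ℤ) : (emb z).re = (3 * (N : ℝ) - 2) / 2 ↔ F0 z = 3 * N - 2 := by
  rw [emb_re]
  constructor
  · intro h
    have : (F0 z : ℝ) = ((3 * N - 2 : ℤ) : ℝ) := by push_cast; linarith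
    exact_mod_cast this
  · intro h
    have : (F0 z : ℝ) = ((3 * N - 2 : ℤ) : ℝ) := by exact_mod_cast h
    push_cast at this
    linarith

lemma re_nonneg_iff (z : ℤ × ℤ) : 0 ≤ (emb z).re ↔ 0 ≤ F0 z := by
  rw [emb_re]
  constructor
  · intro h
    have : (0 : ℝ) ≤ (F0 z : ℝ) := by linarith
    exact_mod_cast this
  · intro h
    have : (0 : ℝ) ≤ (F0 z : ℝ) := by exact_mod_cast h
    linarith

lemma chain_of : ∀ {R : List (ℤ × ℤ)}, (∀ x ∈ R, hon x) →
    (R.map emb).IsChain (fun x y => dist x y = 1) → R.IsChain Adj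
  | [], _, _ => by simp
  | [x], _, _ => by simp
  | x :: y :: R, h, hc => by
    simp only [List.map_cons] at hc
    obtain ⟨h1, h2⟩ := List.isChain_cons_cons.1 hc
    refine List.isChain_cons_cons.2 ⟨⟨h x (by simp), h y (by simp), (dist_emb x y).1 h1⟩, ?_⟩
    exact chain_of (fun z hz => h z (List.mem_cons_of_mem _ hz)) (by simpa using h2)

lemma chain_emb : ∀ {R : List (ℤ × ℤ)}, R.IsChain Adj → (R.map emb).IsChain (fun x y => dist x y = 1)
  | [], _ => by simp
  | [x], _ => by simp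
  | x :: y :: R, hc => by
    obtain ⟨h1, h2⟩ := List.isChain_cons_cons.1 hc
    have := chain_emb h2
    simp only [List.map_cons] at this ⊢
    exact List.isChain_cons_cons.2 ⟨(dist_emb x y).2 h1.2.2, this⟩

lemma lift_emb : ∀ {w : List ℂ}, (∀ z ∈ w, z ∈ Pool.Agent.Hhelper14.Honeycomb.V) → ∃ R : List (ℤ × ℤ), R.map emb = w ∧ ∀ x ∈ R, hon x
  | [], _ => ⟨[], rfl, by simp⟩
  | z :: w, h => by
    obtain ⟨R, h1, h2⟩ := lift_emb (w := w) (fun x hx => h x (List.mem_cons_of_mem _ hx))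
    obtain ⟨x, hx1, hx2⟩ := mem_V.1 (h z (by simp))
    refine ⟨x :: R, by rw [List.map_cons, h1, ← hx2], ?_⟩
    intro y hy
    rcases List.mem_cons.1 hy with e | hy
    · rw [e]; exact hx1
    · exact h2 y hy

lemma emb_zero : emb (0, 0) = 0 := by simp [emb]

lemma pairwise_iff {R : List (ℤ × ℤ)} (h : ∀ x ∈ R, hon x) :
    (R.map emb).Pairwise (fun x y => ¬ Plane.Same L x y) ↔ (R.map (pf N i)).Nodup := by
  unfold List.Nodup
  rw [List.pairwise_map, List.pairwise_map]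
  constructor
  · intro h1
    refine h1.imp_of_mem ?_
    intro a b ha hb h2 h3
    exact h2 ((same_iff (h a ha) (h b hb)).2 h3)
  · intro h1
    refine h1.imp_of_mem ?_
    intro a b ha hb h2 h3
    exact h2 ((same_iff (h a ha) (h b hb)).1 h3)

lemma emb_mem_iff {R : List (ℤ × ℤ)} (h : ∀ x ∈ R, hon x) :
    R.map emb ∈ Plane.Cross L N ↔ R ∈ IP N i := by
  have hh : (R.map emb).head? = some 0 ↔ R.head? = some (0, 0) := by
    rw [List.head?_map]
    cases R.head? with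
    | none => simp
    | some a =>
      simp only [Option.map_some, Option.some.injEq]
      rw [← emb_zero, emb_inj.eq_iff]
  have hl : (∀ z ∈ (R.map emb).getLast?, z.re = (3 * (N : ℝ) - 2) / 2) ↔ ∀ z ∈ R.getLast?, F0 z = 3 * N - 2 := by
    rw [List.getLast?_map]
    cases R.getLast? with
    | none => simp
    | some a => simp [re_eq_iff]
  constructor
  · rintro ⟨h1, h2, h3, h4, h5⟩
    refine ⟨hh.1 h1, ?_, chain_of h h3, (pairwise_iff h).1 h4, hl.1 h5⟩
    intro z hz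
    obtain ⟨-, h6, h7⟩ := h2 (emb z) (List.mem_map_of_mem hz)
    exact ⟨h z hz, (re_nonneg_iff z).1 h6, (re_le_iff z).1 h7⟩
  · rintro ⟨h1, h2, h3, h4, h5⟩
    refine ⟨hh.2 h1, ?_, chain_emb h3, (pairwise_iff h).2 h4, hl.2 h5⟩
    intro z hz
    obtain ⟨x, hx, rfl⟩ := List.mem_map.1 hz
    obtain ⟨h6, h7, h8⟩ := h2 x hx
    exact ⟨mem_V.2 ⟨x, h6, rfl⟩, (re_nonneg_iff x).2 h7, (re_le_iff x).2 h8⟩

lemma emb_surj {w : List ℂ} (hw : w ∈ Plane.Cross L N) (i : Fin L) : ∃ R ∈ IP N i, R.map emb = w := by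
  obtain ⟨R, hR, h⟩ := lift_emb (fun z hz => (hw.2.1 z hz).1)
  refine ⟨R, ?_, hR⟩
  rw [← hR] at hw
  exact (emb_mem_iff h).1 hw

/-! ### the cylinder graph -/

lemma hon_of_chain : ∀ {R : List (ℤ × ℤ)} {z : ℤ × ℤ}, (z :: R).IsChain Adj → ∀ x ∈ R, hon x
  | [], _, _ => by simp
  | y :: R, z, h => by
    rw [List.isChain_cons_cons] at h
    intro x hx
    rcases List.mem_cons.1 hx with rfl | hx
    · exact h.1.2.1
    · exact hon_of_chain h.2 x hx

lemma pf_row {z : ℤ × ℤ} (hz : hon z) : (0 ≤ (pf N i z).1 ∧ (pf N i z).1 < N) ↔ (0 ≤ F0 z ∧ F0 z ≤ 3 * N - 2) := by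
  rw [hon_F0] at hz
  have h1 : (pf N i z).1 = (3 * N - 2 - F0 z) / 3 := by
    unfold pf pr
    rw [F0_fl]
  rw [h1]
  omega

lemma pf_top {z : ℤ × ℤ} : (∃ e, pf N i z = ut e) ↔ F0 z = 3 * N - 2 := by
  unfold pf pr ut
  rw [F0_fl]
  constructor
  · rintro ⟨e, he⟩
    have h1 : (3 * (N : ℤ) - 2 - F0 z) / 3 = 0 := congrArg (fun w => w.1) he
    have h2 : decide ((3 * (N : ℤ) - 2 - F0 z) % 3 = 0) = true := congrArg (fun w => w.2.2) he
    rw [decide_eq_true_iff] at h2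
    omega
  · intro h
    rw [h, sub_self]
    exact ⟨md i (0 / 3 - (fl N z).1), by simp⟩

lemma pf_mem {R : List (ℤ × ℤ)} (h : R ∈ IP N i) : R.map (pf N i) ∈ CC N i := by
  obtain ⟨h1, h2, h3, h4, h5⟩ := h
  have hne : R ≠ [] := by rintro rfl; simp at h1
  obtain ⟨e, he⟩ := pf_top.2 (h5 _ (List.getLast?_eq_getLast_of_ne_nil hne))
  refine ⟨e, h4, ?_, ?_, ?_, ?_⟩
  · rw [map_pf]
    exact chain_map i (chain_fl h3)
  · intro z hz
    obtain ⟨x, hx, rfl⟩ := List.mem_map.1 hz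
    exact (pf_row (h2 x hx).1).2 (h2 x hx).2
  · rw [List.head?_map, h1, Option.map_some, pf_zero]
  · rw [List.getLast?_map, List.getLast?_eq_getLast_of_ne_nil hne, Option.map_some, he]

lemma pf_surj {l : List (CV L)} (h : l ∈ CC N i) : ∃ R ∈ IP N i, R.map (pf N i) = l := by
  obtain ⟨e, h1, h2, h3, h4, h5⟩ := h
  cases l with
  | nil => simp at h4
  | cons v l =>
    simp only [List.head?_cons, Option.some.injEq] at h4
    rw [← pf_zero] at h4
    subst h4
    have hz : hon ((0, 0) : ℤ × ℤ) := by decide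
    obtain ⟨R, h6, h7⟩ := lift_list i l (z := fl N (0, 0)) (hon_fl hz) h2
    have hR : ((0, 0) :: R.map (fl N)).map (pf N i) = pf N i (0, 0) :: l := by
      rw [List.map_cons, map_pf, map_fl_fl, h7]
    have hc : ((0, 0) :: R.map (fl N)).IsChain Adj := by
      have := chain_fl (N := N) h6
      rwa [List.map_cons, fl_fl] at this
    have hh : ∀ z ∈ (0, 0) :: R.map (fl N), hon z := by
      intro z hz'
      rcases List.mem_cons.1 hz' with rfl | hz'
      · exact hz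
      · exact hon_of_chain hc z hz'
    refine ⟨(0, 0) :: R.map (fl N), ⟨rfl, ?_, hc, ?_, ?_⟩, hR⟩
    · intro z hz'
      refine ⟨hh z hz', (pf_row (i := i) (hh z hz')).1 (h3 _ ?_)⟩
      rw [← hR]
      exact List.mem_map_of_mem hz'
    · rw [hR]; exact h1
    · intro z hz'
      apply (pf_top (i := i)).1
      refine ⟨e, ?_⟩
      rw [← hR, List.getLast?_map, Option.mem_def.1 hz', Option.map_some, Option.some.injEq] at h5
      exact h5

lemma pf_inj (hL : 2 ≤ L) {R R' : List (ℤ × ℤ)} (h : R ∈ IP N i) (h' : R' ∈ IP N i)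
    (he : R.map (pf N i) = R'.map (pf N i)) : R = R' := by
  obtain ⟨h1, -, h3, -, -⟩ := h
  obtain ⟨h1', -, h3', -, -⟩ := h'
  cases R with
  | nil => simp at h1
  | cons a R =>
    cases R' with
    | nil => simp at h1'
    | cons b R' =>
      simp only [List.head?_cons, Option.some.injEq] at h1 h1'
      subst h1
      subst h1'
      rw [List.map_cons, List.map_cons, List.cons.injEq, map_pf, map_pf] at he
      have h4 := chain_fl (N := N) h3
      have h4' := chain_fl (N := N) h3'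
      rw [List.map_cons] at h4 h4'
      have := uniq_list hL i _ _ h4 h4' he.2
      have h5 := congrArg (List.map (fl N)) this
      rw [map_fl_fl, map_fl_fl] at h5
      rw [h5]

/-! ### sums -/

/-- Paths of the plane and lists of integer points. -/
noncomputable def eqvE (N : ℕ) (i : Fin L) : IP N i ≃ Plane.Cross L N :=
  Equiv.ofBijective (fun R => ⟨R.1.map emb, (emb_mem_iff fun x hx => (R.2.2.1 x hx).1).2 R.2⟩) <| by
    constructor
    · intro R R' h
      exact Subtype.ext (List.map_injective_iff.2 emb_inj (congrArg Subtype.val h))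
    · intro w
      obtain ⟨R, hR, h⟩ := emb_surj w.2 i
      exact ⟨⟨R, hR⟩, Subtype.ext h⟩

/-- Lists of integer points and paths of the cylinder. -/
noncomputable def eqvP (hL : 2 ≤ L) (N : ℕ) (i : Fin L) : IP N i ≃ CC N i :=
  Equiv.ofBijective (fun R => ⟨R.1.map (pf N i), pf_mem R.2⟩) <| by
    constructor
    · intro R R' h
      exact Subtype.ext (pf_inj hL R.2 R'.2 (congrArg Subtype.val h))
    · intro w
      obtain ⟨R, hR, h⟩ := pf_surj w.2
      exact ⟨⟨R, hR⟩, Subtype.ext h⟩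

lemma ut_inj {e e' : Fin L} (h : ut e = ut e') : e = e' := congrArg (fun w : CV L => w.2.1) h

/-- The last vertex. -/
noncomputable def eqvS (N : ℕ) (i : Fin L) : (Σ e : Fin L, {l : List (CV L) // CP N (ub N i) (ut e) l}) ≃ CC N i :=
  Equiv.ofBijective (fun x => ⟨x.2.1, x.1, x.2.2⟩) <| by
    constructor
    · rintro ⟨e, l, hl⟩ ⟨e', l', hl'⟩ h
      have h1 : l = l' := congrArg Subtype.val h
      subst h1
      have h2 := hl.2.2.2.2
      rw [hl'.2.2.2.2, Option.some.injEq] at h2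
      have h3 := ut_inj h2
      subst h3
      rfl
    · rintro ⟨l, e, hl⟩
      exact ⟨⟨e, l, hl⟩, rfl⟩

/-- The pairs of crossing paths of the cylinder graph, both from the bottom vertex `i`, which only meet there. -/
def AvP (N : ℕ) (i : Fin L) : Set (List (CV L) × List (CV L)) :=
  {q | (∃ e, CP N (ub N i) (ut e) q.1) ∧ (∃ e, CP N (ub N i) (ut e) q.2) ∧ ∀ z ∈ q.1.tail, z ∉ q.2}

lemma tsum_CC (N : ℕ) (i : Fin L) : ∑' l : CC N i, xE ^ l.1.length = ∑ e, cm N (ub N i) (ut e) := by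
  rw [← (eqvS N i).tsum_eq, ENNReal.tsum_sigma', tsum_fintype]
  rfl

theorem cover_one (hL : 2 ≤ L) (N : ℕ) (c : Fin L) :
    ∑' w : Plane.Cross L N, ENNReal.ofReal (Plane.wt w.1) = ∑ e, cm N (ub N c) (ut e) := by
  rw [← tsum_CC, ← (eqvE N c).tsum_eq, ← (eqvP hL N c).tsum_eq]
  apply tsum_congr
  intro R
  rw [ofReal_wt]
  show xE ^ (R.1.map emb).length = xE ^ (R.1.map (pf N c)).length
  rw [List.length_map, List.length_map]

/-- Pairs of lists of integer points. -/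
def IP2 (N : ℕ) (i : Fin L) : Set (List (ℤ × ℤ) × List (ℤ × ℤ)) :=
  {q | q.1 ∈ IP N i ∧ q.2 ∈ IP N i ∧ ∀ z ∈ q.1.tail, ∀ z' ∈ q.2, pf N i z ≠ pf N i z'}

lemma avoid_iff {q : List (ℤ × ℤ) × List (ℤ × ℤ)} (h1 : q.1 ∈ IP N i) (h2 : q.2 ∈ IP N i) :
    (∀ z ∈ (q.1.map emb).tail, ∀ z' ∈ q.2.map emb, ¬ Plane.Same L z z') ↔
      ∀ z ∈ q.1.tail, ∀ z' ∈ q.2, pf N i z ≠ pf N i z' := by
  have hh : ∀ z ∈ q.1.tail, ∀ z' ∈ q.2, (Plane.Same L (emb z) (emb z') ↔ pf N i z = pf N i z') := by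
    intro z hz z' hz'
    exact same_iff (h1.2.1 z (List.mem_of_mem_tail hz)).1 (h2.2.1 z' hz').1
  rw [← List.map_tail]
  constructor
  · intro h z hz z' hz' he
    exact h _ (List.mem_map_of_mem hz) _ (List.mem_map_of_mem hz') ((hh z hz z' hz').2 he)
  · intro h z hz z' hz' he
    obtain ⟨x, hx, rfl⟩ := List.mem_map.1 hz
    obtain ⟨x', hx', rfl⟩ := List.mem_map.1 hz'
    exact h x hx x' hx' ((hh x hx x' hx').1 he)

lemma avP_iff {q : List (ℤ × ℤ) × List (ℤ × ℤ)} :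
    (∀ z ∈ (q.1.map (pf N i)).tail, z ∉ q.2.map (pf N i)) ↔
      ∀ z ∈ q.1.tail, ∀ z' ∈ q.2, pf N i z ≠ pf N i z' := by
  rw [← List.map_tail]
  constructor
  · intro h z hz z' hz' he
    exact h _ (List.mem_map_of_mem hz) (by rw [he]; exact List.mem_map_of_mem hz')
  · intro h z hz hz'
    obtain ⟨x, hx, rfl⟩ := List.mem_map.1 hz
    obtain ⟨x', hx', he⟩ := List.mem_map.1 hz'
    exact h x hx x' hx' he.symm

/-- Pairs, plane. -/
noncomputable def eqvE2 (N : ℕ) (i : Fin L) : IP2 N i ≃ Plane.Avoid L N :=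
  Equiv.ofBijective (fun q => ⟨(q.1.1.map emb, q.1.2.map emb),
      (emb_mem_iff fun x hx => (q.2.1.2.1 x hx).1).2 q.2.1,
      (emb_mem_iff fun x hx => (q.2.2.1.2.1 x hx).1).2 q.2.2.1, (avoid_iff q.2.1 q.2.2.1).2 q.2.2.2⟩) <| by
    constructor
    · intro q q' h
      have h1 := congrArg Subtype.val h
      rw [Prod.mk.injEq] at h1
      exact Subtype.ext (Prod.ext (List.map_injective_iff.2 emb_inj h1.1) (List.map_injective_iff.2 emb_inj h1.2))
    · rintro ⟨⟨w, w'⟩, h1, h2, h3⟩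
      obtain ⟨R, hR, rfl⟩ := emb_surj h1 i
      obtain ⟨R', hR', rfl⟩ := emb_surj h2 i
      exact ⟨⟨(R, R'), hR, hR', (avoid_iff (q := (R, R')) hR hR').1 h3⟩, rfl⟩

/-- Pairs, cylinder. -/
noncomputable def eqvP2 (hL : 2 ≤ L) (N : ℕ) (i : Fin L) : IP2 N i ≃ AvP N i :=
  Equiv.ofBijective (fun q => ⟨(q.1.1.map (pf N i), q.1.2.map (pf N i)), pf_mem q.2.1, pf_mem q.2.2.1,
      avP_iff.2 q.2.2.2⟩) <| by
    constructor
    · intro q q' h
      have h1 := congrArg Subtype.val h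
      rw [Prod.mk.injEq] at h1
      exact Subtype.ext (Prod.ext (pf_inj hL q.2.1 q'.2.1 h1.1) (pf_inj hL q.2.2.1 q'.2.2.1 h1.2))
    · rintro ⟨⟨w, w'⟩, h1, h2, h3⟩
      obtain ⟨R, hR, rfl⟩ := pf_surj h1
      obtain ⟨R', hR', rfl⟩ := pf_surj h2
      exact ⟨⟨(R, R'), hR, hR', (avP_iff (q := (R, R'))).1 h3⟩, rfl⟩

theorem cover_two (hL : 2 ≤ L) (N : ℕ) (c : Fin L) :
    ∑' q : Plane.Avoid L N, ENNReal.ofReal (Plane.wt q.1.1 * Plane.wt q.1.2) =
      ∑' q : AvP N c, xE ^ (q.1.1.length + q.1.2.length) := by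
  rw [← (eqvE2 N c).tsum_eq, ← (eqvP2 hL N c).tsum_eq]
  apply tsum_congr
  intro q
  rw [ENNReal.ofReal_mul (by unfold Plane.wt; rw [one_div_muL]; exact pow_nonneg xc_pos.le _), ofReal_wt, ofReal_wt,
    pow_add]
  show xE ^ (q.1.1.map emb).length * xE ^ (q.1.2.map emb).length =
    xE ^ (q.1.1.map (pf N c)).length * xE ^ (q.1.2.map (pf N c)).length
  simp only [List.length_map]

end Pool.Agent.CYL.DC
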